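import Mathlib
import Pool.Agent.Lib.MP_acf58e_gf.Emain
import Pool.Agent.Lib.MP_acf58e_gf.JT
import Pool.Agent.Lib.MP_acf58e_gf.RC

/-!
Level sets of the two-dimensional discrete Gaussian free field: conditioned on the existence of an
open crossing from `∂V_{αN}` to `∂V_{βN}`, the chemical distance is at most `N^(1+ε)` with
probability tending to one, at every level `λ`.

All the definitions needed to read the statement are in this file.
-/

set_option autoImplicit false

namespace Pool.Agent.Results.MP_acf58e_pr.ChemicalDistance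

open MeasureTheory ProbabilityTheory Filter Topology
open scoped ENNReal

/-- the square lattice -/
abbrev V := ℤ × ℤ

/-- nearest neighbours -/
def Adj (x y : V) : Prop := |x.1 - y.1| + |x.2 - y.2| = 1

/-- `V_N`: the `N × N` box, centred at the origin (`N` odd) or at `(1/2, 1/2)` (`N` even) -/
noncomputable def box (N : ℕ) : Finset V :=
  Finset.Icc (-(((N - 1) / 2 : ℕ) : ℤ), -(((N - 1) / 2 : ℕ) : ℤ)) (((N / 2 : ℕ) : ℤ), ((N / 2 : ℕ) : ℤ))

/-- `∂V_N`: the points of `V_N` which have a nearest neighbour outside `V_N` -/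
def innerBd (N : ℕ) : Set V := {v | v ∈ box N ∧ ∃ u : V, Adj v u ∧ u ∉ box N}

open Classical in
/-- probability that simple random walk started at `u` is at `v` at time `n` and has not visited
`∂V_N` (up to and including time `n`) -/
noncomputable def walk (N : ℕ) : ℕ → V → V → ℝ
  | 0, u, v => if u ∈ box N ∧ u ∉ innerBd N ∧ u = v then 1 else 0
  | n + 1, u, v => if u ∈ box N ∧ u ∉ innerBd N then
      (walk N n (u.1 + 1, u.2) v + walk N n (u.1 - 1, u.2) v + walk N n (u.1, u.2 + 1) v +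
        walk N n (u.1, u.2 - 1) v) / 4 else 0

/-- `G_{V_N}(u,v)`: expected number of visits to `v` before `∂V_N` is reached -/
noncomputable def green (N : ℕ) (u v : V) : ℝ := ∑' n, walk N n u v

/-- `η` is a centred Gaussian process on `V_N` with covariance `(1/4) G_{V_N}` (in particular it is
almost surely `0` on `∂V_N`): every linear combination has the corresponding Gaussian law. -/
def IsDGFF (N : ℕ) {Ω : Type*} [MeasurableSpace Ω] (P : Measure Ω) (η : V → Ω → ℝ) : Prop :=
  (∀ v ∈ box N, Measurable (η v)) ∧ ∀ c : V → ℝ,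
    P.map (fun ω => ∑ v ∈ box N, c v * η v ω) =
      gaussianReal 0 (Real.toNNReal (∑ u ∈ box N, ∑ v ∈ box N, c u * c v * (green N u v / 4)))

/-- the open vertices `{v ∈ V_N : η_v ≤ λ}` -/
def openSet (N : ℕ) (lam : ℝ) {Ω : Type*} (η : V → Ω → ℝ) (ω : Ω) : Set V :=
  {v | v ∈ box N ∧ η v ω ≤ lam}

/-- graph distance in the subgraph induced by `A` (`⊤` if `x`, `y` are not connected in `A`) -/
noncomputable def graphDist (A : Set V) (x y : V) : ℕ∞ :=
  ⨅ (n : ℕ) (_ : ∃ p : ℕ → V, p 0 = x ∧ p n = y ∧ (∀ i ≤ n, p i ∈ A) ∧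
    ∀ i < n, Adj (p i) (p (i + 1))), (n : ℕ∞)

/-- `D_N`: the chemical distance between `∂V_{αN}` and `∂V_{βN}` in the level set -/
noncomputable def chemDist (N : ℕ) (α β lam : ℝ) {Ω : Type*} (η : V → Ω → ℝ) (ω : Ω) : ℕ∞ :=
  ⨅ u ∈ innerBd ⌊α * N⌋₊, ⨅ v ∈ innerBd ⌊β * N⌋₊, graphDist (openSet N lam η ω) u v

theorem mem_bN (N : ℕ) (v : V) : v ∈ GF.bN N ↔ v ∈ innerBd N := by
  unfold GF.bN innerBd
  simp only [Finset.mem_filter, Set.mem_ofPred_eq]
  exact Iff.rfl

theorem walk_eq (N n : ℕ) (u v : V) : walk N n u v = GF.kp N n u v := by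
  induction n generalizing u with
  | zero =>
    have e : (u ∈ box N ∧ u ∉ innerBd N ∧ u = v) ↔ (u ∈ GF.iN N ∧ u = v) := by
      unfold GF.iN
      rw [Finset.mem_sdiff, mem_bN]
      tauto
    unfold walk GF.kp
    simp only [e]
  | succ n ih =>
    have e : (u ∈ box N ∧ u ∉ innerBd N) ↔ (u ∈ GF.iN N) := by
      unfold GF.iN
      rw [Finset.mem_sdiff, mem_bN]
      tauto
    unfold walk GF.kp
    simp only [e, ih]
    rfl

theorem green_eq (N : ℕ) (u v : V) : green N u v = GF.GN N u v := by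
  unfold green GF.GN
  simp only [walk_eq]

theorem isDGFF_iff (N : ℕ) {Ω : Type*} [MeasurableSpace Ω] (P : Measure Ω) (η : V → Ω → ℝ) :
    IsDGFF N P η ↔ GF.IsDGFF N P η := by
  unfold IsDGFF GF.IsDGFF
  simp only [green_eq]
  exact Iff.rfl

theorem chemDist_eq (N : ℕ) (α β lam : ℝ) {Ω : Type*} (η : V → Ω → ℝ) (ω : Ω) :
    chemDist N α β lam η ω = GF.DN N α β lam η ω := by
  unfold chemDist GF.DN
  simp only [mem_bN]
  rfl

/-- (1) The field exists for every `N`. (2) For all `0 < α < β < 1`, every level `λ`, every `ε > 0`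
and all discrete Gaussian free fields `η_N` on `V_N` (on arbitrary probability spaces): a crossing
exists with positive probability for all large `N`, and conditionally on `D_N < ∞` the probability
of `D_N ≤ N^(1+ε)` tends to one. -/
theorem result :
    (∀ N : ℕ, ∃ (P : Measure (V → ℝ)) (_ : IsProbabilityMeasure P), IsDGFF N P (fun v X => X v)) ∧
    ∀ (α β lam ε : ℝ), 0 < α → α < β → β < 1 → 0 < ε →
    ∀ (Ω : ℕ → Type) [∀ N, MeasurableSpace (Ω N)] (P : ∀ N, Measure (Ω N))
      [∀ N, IsProbabilityMeasure (P N)] (η : ∀ N, V → Ω N → ℝ),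
      (∀ N, 1 ≤ N → IsDGFF N (P N) (η N)) →
      (∀ᶠ N in atTop, 0 < P N {ω | chemDist N α β lam (η N) ω < ⊤}) ∧
      Tendsto (fun N : ℕ =>
        (P N)[{ω | ((chemDist N α β lam (η N) ω : ℕ∞) : ℝ≥0∞) ≤ ENNReal.ofReal ((N : ℝ) ^ (1 + ε))} |
          {ω | chemDist N α β lam (η N) ω < ⊤}]) atTop (𝓝 1) := by
  refine ⟨fun N => ?_, ?_⟩
  · obtain ⟨P, hP, h⟩ := GF.exists_DGFF N
    exact ⟨P, hP, (isDGFF_iff N P _).2 h⟩
  · intro α β lam ε hα hαβ hβ hε Ω _ P _ η h
    obtain ⟨w0, h0, -, hJ⟩ := GF.J_theorem GF.RC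
    have := GF.main h0 hJ GF.RC α β lam ε hα hαβ hβ hε Ω P η
      (fun N hN => (isDGFF_iff N (P N) (η N)).1 (h N hN))
    simpa only [chemDist_eq] using this

end Pool.Agent.Results.MP_acf58e_pr.ChemicalDistance
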